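import Pool.Agent.Y45.MON.StmG

/-!
# Project MON (helper45): the words, one step, the limit group
-/

set_option autoImplicit false

namespace Pool.Agent.Y45.MON

open Pool.Agent.TH54.BU

/-- the parameters of the words -/
structure WP (r : ℕ) where
  M1 : ℕ
  m2 : ℕ
  δ : Fin r → ℕ
  e : Fin r → Fin 4 → ℕ

/-- first word -/
def P0 {G : Type} [Group G] (M1 : ℕ) (a b : G) : G := a * b * a ^ M1 * b⁻¹

/-- second word -/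
def X1 {G : Type} [Group G] (M1 m2 : ℕ) (a b : G) : G :=
  a * P0 M1 a b ^ m2 * a⁻¹ * (P0 M1 a b ^ m2)⁻¹

/-- third words -/
def Wj {r : ℕ} (w : WP r) {G : Type} [Group G] (j : Fin r) (a b X : G) : G :=
  a ^ w.δ j * X ^ w.e j 0 * b * X ^ w.e j 1 * a⁻¹ * X ^ w.e j 2 * b⁻¹ * X ^ w.e j 3

/-- the words in two letters -/
def vv {r : ℕ} (w : WP r) {G : Type} [Group G] (j : Fin r) (a b : G) : G :=
  Wj w j a b (X1 w.M1 w.m2 a b)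

/-- all powers are short -/
def Sp {G : Type} [Group G] (H : GH G) (g : G) : Prop := ∀ k : ℤ, H.len (g ^ k) ≤ 1

/-- good data -/
structure Gd {G : Type} [Group G] (H : GH G) (a b X : G) : Prop where
  la : H.len a ≤ 1
  lb : H.len b ≤ 1
  lX : H.len X ≤ 1
  iX : ¬ IsOfFinOrder X
  ca : a * X ≠ X * a
  ca2 : a ^ 2 * X ≠ X * a ^ 2
  cb : b * X ≠ X * b

/-- the conclusions of one step `f : G → G'`; `ex g` is the order which is given to the primitive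
short element `g` of infinite order, `Xs` are representatives of these elements -/
structure StepX {r : ℕ} (w : WP r) (R0 : ℕ) {G G' : Type} [Group G] [Group G'] (ex : G → ℕ)
    (Xs : Set G) (H : GH G) (H' : GH G') (f : G →* G') : Prop where
  surj : Function.Surjective f
  len : ∀ g, H'.len (f g) ≤ (H.len g + 1) / 2
  len0 : ∀ g, H.len g ≤ R0 → H'.len (f g) ≤ 1
  small : ∀ g, H.len g ≤ 20 → f g = 1 → g = 1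
  kill : ∀ g, H.len g ≤ 1 → IsOfFinOrder (f g)
  prim : ∀ x ∈ Xs, Prim x
  ts : ∀ q : G', IsOfFinOrder q → ∃ u : G', Sp H' (u * q * u⁻¹)
  short : ∀ g, ¬ IsOfFinOrder g → H.len g ≤ 1 → ∃ x ∈ Xs, ∃ (u : G) (k : ℤ), g = u * x ^ k * u⁻¹
  tor : ∀ q : G', IsOfFinOrder q → (∃ g, f g = q ∧ IsOfFinOrder g) ∨
    ∃ x ∈ Xs, ∃ (u : G) (k : ℤ), f (u * x ^ k * u⁻¹) = q
  ord : ∀ x ∈ Xs, ∀ k : ℤ, f (x ^ k) = 1 ↔ (ex x : ℤ) ∣ k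
  cnn : ∀ x ∈ Xs, ∀ x' ∈ Xs, ∀ (u : G) (k l : ℤ), f (x ^ k) ≠ 1 →
    f (u * x' ^ l * u⁻¹) = f (x ^ k) →
    x = x' ∧ (∃ s : ℤ, f u = f (x ^ s)) ∧ f (x ^ l) = f (x ^ k)
  cno : ∀ x ∈ Xs, ∀ (g u : G) (k : ℤ), IsOfFinOrder g → f (u * x ^ k * u⁻¹) = f g →
    f (x ^ k) = 1
  ctt : ∀ g g' u : G, IsOfFinOrder g → IsOfFinOrder g' → g' ≠ 1 → f (u * g * u⁻¹) = f g' →
    ∃ u' : G, f u' = f u ∧ u' * g * u'⁻¹ = g'
  pb : ∀ a b : G', IsOfFinOrder a → a * b ≠ b * a → IsOfFinOrder (P0 w.M1 a b) →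
    ∃ (a1 b1 : G) (h : G'), IsOfFinOrder a1 ∧ Sp H a1 ∧ H.len b1 ≤ R0 ∧
      f a1 = h * a * h⁻¹ ∧ f b1 = h * b * h⁻¹
  xa : ∀ a1 b1 : G, IsOfFinOrder a1 → Sp H a1 → H.len b1 ≤ R0 →
    ¬ IsOfFinOrder (P0 w.M1 a1 b1) → IsOfFinOrder (f (P0 w.M1 a1 b1)) →
    ¬ IsOfFinOrder (f (X1 w.M1 w.m2 a1 b1)) ∧ H'.len (f (X1 w.M1 w.m2 a1 b1)) ≤ 1 ∧
      ∀ z, H.len z ≤ R0 → z ≠ 1 →
        f z * f (X1 w.M1 w.m2 a1 b1) ≠ f (X1 w.M1 w.m2 a1 b1) * f z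
  wr : ∀ a b X, Gd H a b X → ∀ j, ¬ IsOfFinOrder (f (Wj w j a b X)) ∧
    H'.len (f (Wj w j a b X)) ≤ 1 ∧
    (∀ q, q * f (Wj w j a b X) = f (Wj w j a b X) * q → ∃ t : ℤ, q = (f (Wj w j a b X)) ^ t) ∧
    (a * b ≠ b * a → f (a * b * a⁻¹ * b⁻¹) * f (Wj w j a b X) ≠
      f (Wj w j a b X) * f (a * b * a⁻¹ * b⁻¹)) ∧
    ∀ a' b' X', Gd H a' b' X' → ∀ (j' : Fin r) (q : G'),
      (q * f (Wj w j a b X) * q⁻¹ = f (Wj w j' a' b' X') →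
        j = j' ∧ ∃ g : G, a' = g * a * g⁻¹ ∧ b' = g * b * g⁻¹) ∧
      q * f (Wj w j a b X) * q⁻¹ ≠ (f (Wj w j' a' b' X'))⁻¹

/-- one step -/
def StepStmt : Prop := ∀ (r : ℕ) (δ : Fin r → ℕ), (∀ j, δ j = 1 ∨ δ j = 2) →
  ∃ (w : WP r) (R0 K B T n0 : ℕ), w.δ = δ ∧ 1 ≤ R0 ∧ 500 ≤ K ∧ 8 * K + 20 ≤ B ∧ 1 ≤ T ∧
    w.M1 < n0 ∧ 3 ≤ n0 ∧
    ∀ N : ℕ, (∀ q : ℕ, q.Prime → q ∣ N → n0 ≤ q) → ∀ (G : Type) [Group G] (H : GH G),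
      H.D = 4 → H.Stab T → H.Acy K B → Tor G N →
      (∀ g : G, IsOfFinOrder g → ∃ u : G, Sp H (u * g * u⁻¹)) →
      ∀ ex : G → ℕ, (∀ g, ex g ∣ N ∧ ex g ≠ 1) → (∀ g u, ex (u * g * u⁻¹) = ex g) →
      (∀ g, ex g⁻¹ = ex g) →
      ∃ (G' : Type) (_ : Group G') (H' : GH G') (f : G →* G') (Xs : Set G),
        H'.D = 4 ∧ H'.Stab T ∧ H'.Acy K B ∧ Tor G' N ∧ StepX w R0 ex Xs H H' f

/-- the properties of the limit group -/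
structure MonP {r : ℕ} (w : WP r) (N : ℕ) {C : Type} (Φ : Fin r → C → C → C)
    (ε : Fin r → C → C → ℕ) (G : Type) [Group G] (col : G → C) (rk : G → ℕ) : Prop where
  exp : ∀ g : G, g ^ N = 1
  gen : ∃ x y : G, Subgroup.closure {x, y} = ⊤ ∧ x * y ≠ y * x
  rkc : ∀ a b : G, a ≠ 1 → b ≠ 1 → a * b = b * a → rk a = rk b
  rk1 : ∀ (j : Fin r) (a b : G), a * b ≠ b * a → rk a < rk (vv w j a b) ∧ rk b < rk (vv w j a b)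
  ord : ∀ (j : Fin r) (a b : G), a * b ≠ b * a → orderOf (vv w j a b) = ε j (col a) (col b)
  clr : ∀ (j : Fin r) (a b : G), a * b ≠ b * a → col (vv w j a b) = Φ j (col a) (col b)
  cmm : ∀ (j j' : Fin r) (a b a' b' : G) (k : ℤ), a * b ≠ b * a → a' * b' ≠ b' * a' →
    vv w j a b ^ k ≠ 1 → vv w j a b ^ k * vv w j' a' b' = vv w j' a' b' * vv w j a b ^ k →
    j = j' ∧ col a = col a' ∧ col b = col b'
  cmt : ∀ (j : Fin r) (a b : G), a * b ≠ b * a →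
    (a * b * a⁻¹ * b⁻¹) * vv w j a b ≠ vv w j a b * (a * b * a⁻¹ * b⁻¹)

/-- the limit theorem -/
def MonStmt : Prop := ∀ (r : ℕ) (δ : Fin r → ℕ), (∀ j, δ j = 1 ∨ δ j = 2) →
  ∃ (w : WP r) (n0 : ℕ), w.δ = δ ∧ 3 ≤ n0 ∧
    ∀ N : ℕ, N ≠ 1 → (∀ q : ℕ, q.Prime → q ∣ N → n0 ≤ q) →
      ∀ (C : Type) (_ : Inhabited C) (Φ : Fin r → C → C → C) (ε : Fin r → C → C → ℕ),
      (∀ j c c', ε j c c' ∣ N ∧ ε j c c' ≠ 1) →
      ∃ (G : Type) (_ : Group G) (col : G → C) (rk : G → ℕ), MonP w N Φ ε G col rk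

end Pool.Agent.Y45.MON
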