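import Pool.Agent.Y45.MON.LDefs
import Pool.Agent.Y45.MON.StmL
import Pool.Agent.Helper270.WPSource

/-!
# Project MON (helper45): statements of the logical jobs
-/

set_option autoImplicit false

namespace Pool.Agent.Y45.MON

open Turing Tm Sy

/-- LG1: if the machine stops the laws imply commutativity -/
def HaltStmt : Prop := ∀ (Γ Λ : Type) [Inhabited Γ] [Inhabited Λ] (M : TM0.Machine Γ Λ)
  (l : List Γ) (p q N : ℕ), Nat.Coprime p q → Hlt M l →
  ∀ (G : Type) [Group G] (v : Sy Γ Λ → G → G → G), Opv G v →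
  (∀ t, IsLaw M l p q N t → ∀ f : ℕ → G, ev v f t = 1) → ∀ a b : G, a * b = b * a

/-- LG2: if the machine does not stop the limit groups satisfy the laws -/
def MonLawStmt : Prop := ∀ (Γ Λ : Type) [Inhabited Γ] [Inhabited Λ] (M : TM0.Machine Γ Λ)
  (l : List Γ) (p q : ℕ) (S : Set ℕ), p.Prime → q.Prime → p ≠ q → ¬ Hlt M l →
  ∀ (G : Type) [Group G] (v : Sy Γ Λ → G → G → G) (col : G → Col (Sy Γ Λ)) (rk : G → ℕ),
  AM (p * q) G v (eps M l p q S) col rk →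
  ∀ t, IsLaw M l p q (p * q) t → ∀ f : ℕ → G, ev v f t = 1

/-- LG2: the independent laws -/
def IndepStmt : Prop := ∀ (Γ Λ : Type) [Inhabited Γ] [Inhabited Λ] (M : TM0.Machine Γ Λ)
  (l : List Γ) (p q : ℕ) (S : Set ℕ), p.Prime → q.Prime → p ≠ q →
  ∀ (G : Type) [Group G] (v : Sy Γ Λ → G → G → G) (col : G → Col (Sy Γ Λ)) (rk : G → ℕ),
  AM (p * q) G v (eps M l p q S) col rk → (∃ x y : G, x * y ≠ y * x) →
  ∀ i : ℕ, (∀ f : ℕ → G, ev v f (tU p i) = 1) ↔ i ∈ S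

/-- LG2: groups `AM` which are not commutative are infinite -/
def InfStmt : Prop := ∀ (Γ Λ : Type) (N : ℕ) (G : Type) [Group G] (v : Sy Γ Λ → G → G → G)
  (ε : Sy Γ Λ → Col (Sy Γ Λ) → Col (Sy Γ Λ) → ℕ) (col : G → Col (Sy Γ Λ)) (rk : G → ℕ),
  (∀ j c c', ε j c c' ≠ 1) → AM N G v ε col rk → (∃ x y : G, x * y ≠ y * x) → Infinite G

/-! ### words as lists -/

/-- inverse word -/
def liL (l : List (ℕ × Bool)) : List (ℕ × Bool) := (l.map fun s => (s.1, !s.2)).reverse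

/-- power of a word -/
def pwL (l : List (ℕ × Bool)) (n : ℕ) : List (ℕ × Bool) := (List.replicate n l).flatten

/-- the word `P0` -/
def P0L (M1 : ℕ) (a b : List (ℕ × Bool)) : List (ℕ × Bool) := a ++ b ++ pwL a M1 ++ liL b

/-- the word `X1` -/
def X1L (M1 m2 : ℕ) (a b : List (ℕ × Bool)) : List (ℕ × Bool) :=
  a ++ pwL (P0L M1 a b) m2 ++ liL a ++ liL (pwL (P0L M1 a b) m2)

/-- the words `vv` -/
def vvL {r : ℕ} (w : WP r) (j : Fin r) (a b : List (ℕ × Bool)) : List (ℕ × Bool) :=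
  pwL a (w.δ j) ++ pwL (X1L w.M1 w.m2 a b) (w.e j 0) ++ b ++
    pwL (X1L w.M1 w.m2 a b) (w.e j 1) ++ liL a ++ pwL (X1L w.M1 w.m2 a b) (w.e j 2) ++ liL b ++
    pwL (X1L w.M1 w.m2 a b) (w.e j 3)

/-- the words of the terms -/
def toL {J : Type} {r : ℕ} (w : WP r) (φ : J → Fin r) : Tm J → List (ℕ × Bool)
  | .var n => [(n, true)]
  | .op j a b => vvL w (φ j) (toL w φ a) (toL w φ b)
  | .pow a n => pwL (toL w φ a) n
  | .com a b => toL w φ a ++ toL w φ b ++ liL (toL w φ a) ++ liL (toL w φ b)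

/-- LG3: the words of the terms have the right values -/
def ToLStmt : Prop := ∀ (J : Type) (r : ℕ) (w : WP r) (φ : J → Fin r) (G : Type) [Group G]
  (f : ℕ → G) (t : Tm J),
  FreeGroup.lift f (FreeGroup.mk (toL w φ t)) = ev (fun j a b => vv w (φ j) a b) f t

/-- the input of the machine -/
noncomputable def inp (n : ℕ) : List (TM2to1.Γ' PartrecToTM2.K' (fun _ => PartrecToTM2.Γ')) :=
  Helper270.WPSource.sym true .cons ::
    (PartrecToTM2.trNat n).reverse.map (Helper270.WPSource.sym false)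

/-- LG3: the list of laws is computable -/
def CompStmt : Prop := ∀ (Λ : Type) [Inhabited Λ] [Finite Λ]
  (M : TM0.Machine (TM2to1.Γ' PartrecToTM2.K' (fun _ => PartrecToTM2.Γ')) Λ) (p q N r : ℕ)
  (w : WP r) (φ : Sy (TM2to1.Γ' PartrecToTM2.K' (fun _ => PartrecToTM2.Γ')) Λ → Fin r),
  ∃ F : ℕ → List (List (ℕ × Bool)), Computable F ∧
    ∀ (n : ℕ) (W : List (ℕ × Bool)), W ∈ F n ↔ ∃ t, IsLaw M (inp n) p q N t ∧ W = toL w φ t

/-- LG4: all together: two primes and a computable list of laws, with the halting problem coded -/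
def CoreStmt : Prop := ∃ (p q : ℕ) (F : ℕ → List (List (ℕ × Bool))) (P : ℕ → Prop),
  p.Prime ∧ q.Prime ∧ p ≠ q ∧ Computable F ∧ ¬ ComputablePred P ∧
  (∀ n, (List.replicate (p * q) ((0 : ℕ), true)) ∈ F n) ∧
  (∀ n, P n → ∀ (G : Type) [Group G],
    (∀ W ∈ F n, ∀ f : ℕ → G, FreeGroup.lift f (FreeGroup.mk W) = 1) → ∀ a b : G, a * b = b * a) ∧
  ∃ U : ℕ → List (ℕ × Bool), ∀ n, ¬ P n → ∀ S : Set ℕ, ∃ (G : Type) (_ : Group G),
    (∀ W ∈ F n, ∀ f : ℕ → G, FreeGroup.lift f (FreeGroup.mk W) = 1) ∧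
    (∃ x y : G, Subgroup.closure {x, y} = ⊤ ∧ x * y ≠ y * x) ∧ Infinite G ∧
    ∀ i : ℕ, (∀ f : ℕ → G, FreeGroup.lift f (FreeGroup.mk (U i)) = 1) ↔ i ∈ S

/-- LG4 -/
def CoreJob : Prop := MonStmt → HaltStmt → MonLawStmt → IndepStmt → InfStmt → ToLStmt → CompStmt →
  CoreStmt

/-- LG5: the frozen statement S15282 -/
def AbStmt : Prop := ¬ (ComputablePred (fun L : List (List (ℕ × Bool)) =>
  ∀ (G : Type) [Group G], (∀ w ∈ L, ∀ f : ℕ → G, FreeGroup.lift f (FreeGroup.mk w) = 1) →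
    ∀ a b : G, a * b = b * a))

/-- LG5: the frozen statement S01696 -/
def SubStmt : Prop := ¬ (ComputablePred (fun L : List (ℕ × Bool) =>
  {N : Subgroup (FreeGroup ℕ) | (∀ f : FreeGroup ℕ →* FreeGroup ℕ, ∀ x ∈ N, f x ∈ N) ∧
    FreeGroup.mk L ∈ N}.Countable))

/-- the value of the nonempty word `w.1 w.2` -/
def sgv {S : Type} [Semigroup S] (f : ℕ → S) (w : ℕ × List ℕ) : S :=
  w.2.foldl (fun s b => s * f b) (f w.1)

/-- the identities of the list hold -/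
def SgSat (S : Type) [Semigroup S] (I : List ((ℕ × List ℕ) × (ℕ × List ℕ))) : Prop :=
  ∀ u ∈ I, ∀ f : ℕ → S, sgv f u.1 = sgv f u.2

/-- LG6: MP_e0e7d6_al -/
def SgStmt : Prop := ¬ (ComputablePred (fun I : List ((ℕ × List ℕ) × (ℕ × List ℕ)) =>
  ∃ (S : Type) (_ : Semigroup S), SgSat S I ∧ Infinite S ∧
    (∃ A : Set S, A.Finite ∧ Subsemigroup.closure A = ⊤) ∧
    ∀ s : S, (Subsemigroup.closure {s} : Set S).Finite))

end Pool.Agent.Y45.MON
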