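import Pool.Agent.Y45.MON.Geo
import Pool.Agent.Y45.MON.LStm
import Pool.Agent.Y811.MON.Frame
import Pool.Agent.Y914.MON.Xa
import Pool.Agent.Y571.MON.S4
import Pool.Agent.Y331.MON.Step5
import Pool.Agent.Y864.MON.LimA
import Pool.Agent.Y872.MON.LimB
import Pool.Agent.Y769.MON.Halt
import Pool.Agent.Y325.MON.LG2
import Pool.Agent.Y839.MON.Comp
import Pool.Agent.Y665.MON.Core
import Pool.Agent.Y246.MON.Ab
import Pool.Agent.Y578.MON.Sub
import Pool.Agent.Y655.MON.Sg

/-!
# Project MON (helper45): everything together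
-/

set_option autoImplicit false

namespace Pool.Agent.Y45.MON

theorem aFrame : FrameStmt := Y811.MON.frame
theorem aWr : WrStmt := Y811.MON.wr aFrame aRig
theorem aXa : XaStmt := Y914.MON.xa aFrame aBdd aRig2
theorem aPb : PbStmt := Y571.MON.t_PB aKey2 aNew
theorem aStep : StepStmt :=
  Y331.MON.stepJob aWr aXa aPb aGr aQuo aStabTor aMix aOrd aConjN aConjO aConjT
theorem aSq : SqStmt := Y864.MON.limA aStep
theorem aLim : LimStmt := Y872.MON.lim
theorem aMon : MonStmt := mon_of aSq aLim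
theorem aCore : CoreStmt :=
  Y665.MON.coreJob aMon Y769.MON.haltStmt Y325.MON.monLaw Y325.MON.indepS Y325.MON.infS
    Y839.MON.toL_val Y839.MON.comp_laws
theorem aAb : AbStmt := Y246.MON.ab_of_core aCore
theorem aSub : SubStmt := Y578.MON.sub_stmt aCore
theorem aSg : SgStmt := Y655.MON.sg aCore

end Pool.Agent.Y45.MON
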