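import Pool.Agent.TH54.BU.Defs
import Pool.Agent.TH54.BU.Angle
import Pool.Agent.TH54.BU.Surv
import Pool.Agent.TH54.BU.Transfer
import Pool.Agent.TH54.BU.ChainA

/-!
# Project MON (helper45): Burnside type quotients with variable exponents: definitions

Everything is the theory of `Pool.Agent.TH54.BU` with the exponent `n : ℕ` replaced by a function
`n : L.ι → ℕ` (the relators are `x i ^ n i`).
-/

set_option autoImplicit false

namespace Pool.Agent.Y45.MON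

open Pool.Agent.TH54.BU

/-- the data of a large power quotient, the line `i` having the exponent `n i` -/
structure Fv {G : Type} [Group G] {H : GH G} {c θ T : ℕ} (L : LS H c θ T) (n : L.ι → ℕ)
    (M : Subgroup G) : Prop where
  normal : M.Normal
  rot : ∀ (i : L.ι) (u : G) (k : ℤ), L.rt i u (n i * k) ∈ M
  gr : ∀ m ∈ M, m ≠ 1 → ∀ p : G, ∃ (i : L.ι) (u : G), (n i : ℤ) ≤ |L.s i u p (m * p)| + 12 * L.thr

/-- the data of one step; `p` is an odd exponent of the torsion elements of `G` -/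
structure Sv {G : Type} [Group G] {H : GH G} {c θ T : ℕ} (L : LS H c θ T) (K B p L1 Θ : ℕ)
    (n : L.ι → ℕ) (E : GH G) (M : Subgroup G) [M.Normal] (Q : GH (G ⧸ M)) : Prop where
  hK : 100 * H.D + 100 ≤ K
  stab : H.Stab T
  hT : 1 ≤ T
  acy : H.Acy K B
  odd : Odd p
  tor : Tor G p
  prim : ∀ i, Prim (L.x i)
  xlen : ∀ i, H.len (L.x i) ≤ L1
  hL1 : 44 * H.D + 44 ≤ L1
  short : ∀ z, ¬ IsOfFinOrder z → H.len z + 40 * H.D + 40 ≤ L1 → L.Short z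
  fil : Fv L n M
  cone : L.Cone E Θ
  le : ∀ g : G, Q.len (g : G ⧸ M) ≤ E.len g
  lift : ∀ q : G ⧸ M, ∃ g : G, (g : G ⧸ M) = q ∧ E.len g = Q.len q
  hQD : Q.D = 2 * E.D + 2

/-- the lifts of an edge `(v, w)` -/
def trEv {G : Type} [Group G] {H : GH G} {c θ T : ℕ} (L : LS H c θ T) (n : L.ι → ℕ)
    (M : Subgroup G) (v w x y : G) : Prop :=
  (H.d v w ≤ 1 ∧ ∃ m ∈ M, x = m * v ∧ y = m * w) ∨
  (∃ (j : L.ι) (t : ℤ), v⁻¹ * w = L.x j ^ t ∧ ∃ m ∈ M, ∃ e1 e2 : ℤ,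
    x = m * v * L.x j ^ e1 ∧ y = m * v * L.x j ^ e2 ∧ (n j : ℤ) ∣ e2 - e1 - t)

/-- a broken line along lines of type `i` -/
structure Br {G : Type} [Group G] {H : GH G} {c θ T : ℕ} (L : LS H c θ T) (i : L.ι) (cs : ℕ → G)
    (f : ℕ → ℤ) (v : ℕ → G) : Prop where
  v0 : v 0 = 1
  vs : ∀ k, v (k + 1) = v k * cs k * L.x i ^ f k
  nc : ∀ k, cs k ∉ Subgroup.zpowers (L.x i)

/-- the projections of the neighbouring lines `g⟨x i⟩` and `g⁻¹⟨x i⟩` to `⟨x i⟩` are near `1` -/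
def PC {G : Type} [Group G] {H : GH G} {c θ T : ℕ} (L : LS H c θ T) (i : L.ι) (P : ℕ) (g : G) :
    Prop :=
  ∀ t : ℤ, |L.s i 1 1 (g * L.x i ^ t)| ≤ P ∧ |L.s i 1 1 (g⁻¹ * L.x i ^ t)| ≤ P

/-- a large constant -/
def cst {G : Type} [Group G] {H : GH G} {c θ T : ℕ} (_ : LS H c θ T) (Θ ρ : ℕ) : ℕ :=
  1000 * (T * (c + θ + Θ + ρ + 1) + 1)

end Pool.Agent.Y45.MON
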