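import Pool.Agent.Y45.MON.StmS
import Pool.Agent.Y102.MON.Rigid
import Pool.Agent.Y108.MON.Rgen
import Pool.Agent.Y182.MON.Case
import Pool.Agent.Y210.MON.Gr
import Pool.Agent.Y919.MON.G10
import Pool.Agent.Y237.MON.Turn2
import Pool.Agent.Y246.MON.New
import Pool.Agent.Y270.MON.V8
import Pool.Agent.Y274.MON.G1
import Pool.Agent.Y275.MON.G5
import Pool.Agent.Y288.MON.Quo
import Pool.Agent.Y288.MON.Surv
import Pool.Agent.Y288.MON.Transfer
import Pool.Agent.Y317.MON.Bdd
import Pool.Agent.Y333.MON.G2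
import Pool.Agent.Y430.MON.V2
import Pool.Agent.Y44.MON.Key2
import Pool.Agent.Y484.MON.Match
import Pool.Agent.Y614.MON.Rig
import Pool.Agent.Y655.MON.Rig2
import Pool.Agent.Y655.MON.Tau

/-!
# Project MON (helper45): all geometric statements
-/

set_option autoImplicit false

namespace Pool.Agent.Y45.MON

theorem aClose : CloseStmt := Y430.MON.tClose
theorem aConeMin : ConeMinStmt := Y430.MON.tConeMin
theorem aReduced : ReducedStmt := Y430.MON.tReduced
theorem aGr : GrStmt := Y210.MON.gr
theorem aQuo : QuoStmt := Y288.MON.quo_of_close aClose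
theorem aAngle : AngleStmt := Y288.MON.angle
theorem aSurv : SurvStmt := Y288.MON.surv aConeMin
theorem aStabTor : StabTorStmt := Y288.MON.stab_tor aConeMin
theorem aRigid : RigidStmt := Y102.MON.rigid aClose
theorem aLiftWindow : LiftWindowStmt := Y102.MON.lift_window aClose
theorem aTransfer : TransferStmt := Y288.MON.transfer aClose
theorem aCase1 : Case1Stmt := Y182.MON.case1 aTransfer aRigid
theorem aCase2 : Case2Stmt := Y182.MON.case2 aLiftWindow aSurv
theorem aMix : MixStmt := Y270.MON.mix aCase1 aCase2 aReduced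
theorem aBdd : BddStmt := Y317.MON.bdd
theorem aGen : GenStmt := Y274.MON.gen
theorem aPcb : PcbStmt := Y333.MON.pcb
theorem aGwin : GwinStmt := Y333.MON.gwin aGen
theorem aMatch : MatchStmt := Y484.MON.matchT aGen aPcb
theorem aRgen : RgenStmt := Y108.MON.t_rgen aClose
theorem aGauge4 : Gauge4Stmt := Y275.MON.t_Gauge4
theorem aGauge2 : Gauge2Stmt := Y275.MON.t_Gauge2
theorem aPat : PatStmt := Y275.MON.t_Pat
theorem aKey2 : Key2Stmt := Y44.MON.key2
theorem aTurn2 : Turn2Stmt := Y237.MON.turn2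
theorem aTau : TauStmt := Y655.MON.tau aTurn2
theorem aNew : NewStmt := Y246.MON.new_of aGen aTau
theorem aOrd : OrdStmt := Y919.MON.ord
theorem aConjN : ConjNStmt := Y919.MON.conjN aTau
theorem aConjO : ConjOStmt := Y919.MON.conjO aTau
theorem aConjT : ConjTStmt := Y919.MON.conjT
theorem aRig : RigStmt := Y614.MON.rig aGwin aMatch aRgen aGauge4 aPat
theorem aRig2 : Rig2Stmt := Y655.MON.rig2 aGen aPcb aGwin aMatch aRgen aGauge2

end Pool.Agent.Y45.MON
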