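import Mathlib

/-!
# Project MON (helper45): the logical part: terms, laws, the simulation of a machine
-/

set_option autoImplicit false

namespace Pool.Agent.Y45.MON

open Turing

/-- the symbols: left cells (`none`: bottom), right cells (`none`: bottom), the cell under the head
with the state, four auxiliary symbols, and three symbols for an independent family of laws -/
inductive Sy (Γ Λ : Type) : Type
  | lc (a : Option Γ) : Sy Γ Λ
  | rc (a : Option Γ) : Sy Γ Λ
  | rh (q : Λ) (a : Γ) : Sy Γ Λ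
  | al : Sy Γ Λ
  | ga : Sy Γ Λ
  | ep : Sy Γ Λ
  | eq : Sy Γ Λ
  | ex (k : Fin 3) : Sy Γ Λ

/-- colours -/
inductive Col (J : Type) : Type
  | bas : Col J
  | node (j : J) (a b : Col J) : Col J

/-- terms -/
inductive Tm (J : Type) : Type
  | var (n : ℕ) : Tm J
  | op (j : J) (a b : Tm J) : Tm J
  | pow (a : Tm J) (n : ℕ) : Tm J
  | com (a b : Tm J) : Tm J

namespace Tm

variable {J : Type}

/-- the value of a term in a group with binary operations `v j` -/
def ev {G : Type} [Group G] (v : J → G → G → G) (f : ℕ → G) : Tm J → G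
  | var n => f n
  | op j a b => v j (ev v f a) (ev v f b)
  | pow a n => (ev v f a) ^ n
  | com a b => ev v f a * ev v f b * (ev v f a)⁻¹ * (ev v f b)⁻¹

/-- the value of a term as a colour (powers and commutators do not occur) -/
def ec (f : ℕ → Col J) : Tm J → Col J
  | var n => f n
  | op j a b => Col.node j (ec f a) (ec f b)
  | pow a _ => ec f a
  | com a _ => ec f a

end Tm

open Tm Sy

section

variable {Γ Λ : Type} [Inhabited Γ] [Inhabited Λ]

/-- the left stack of the start configuration -/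
def tA0 : Tm (Sy Γ Λ) := op (lc none) (var 0) (var 1)

/-- the right stack with the entries `l` -/
def tR : List Γ → Tm (Sy Γ Λ)
  | [] => op (rc none) (var 0) (var 1)
  | a :: l => op (rc (some a)) (tR l) tA0

/-- the right stack of the start configuration with input `l`, with the head -/
def tB0 (l : List Γ) : Tm (Sy Γ Λ) := op (rh default l.headI) (tR l.tail) tA0

open Classical in
/-- the rules: `(s1, s2, t1, t2)` rewrites the configuration `(s1, s2)` to `(t1, t2)` -/
noncomputable def rl (M : TM0.Machine Γ Λ) (q : Λ) (a : Γ) (o o2 : Option Γ) :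
    Option (Tm (Sy Γ Λ) × Tm (Sy Γ Λ) × Tm (Sy Γ Λ) × Tm (Sy Γ Λ)) :=
  match M q a with
  | none => none
  | some (q', .write b) =>
    if q' = q ∧ b = a then none
    else some (op (lc o) (var 0) (var 1), op (rh q a) (var 2) (var 3),
      op (lc o) (var 0) (var 1), op (rh q' b) (var 2) (var 3))
  | some (q', .move Dir.right) =>
    some (op (lc o) (var 0) (var 1), op (rh q a) (op (rc o2) (var 2) (var 3)) (var 4),
      op (lc (some a)) (op (lc o) (var 0) (var 1))
        (op (rh q a) (op (rc o2) (var 2) (var 3)) (var 4)),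
      match o2 with
      | some b => op (rh q' b) (var 2) (var 3)
      | none => op (rh q' default) (op (rc none) (var 2) (var 3)) (op (lc o) (var 0) (var 1)))
  | some (q', .move Dir.left) =>
    match o with
    | some c => some (op (lc (some c)) (var 0) (var 1), op (rh q a) (var 2) (var 3), var 0,
        op (rh q' c) (op (rc (some a)) (var 2) (var 3)) (op (lc (some c)) (var 0) (var 1)))
    | none => some (op (lc none) (var 0) (var 1), op (rh q a) (var 2) (var 3),
        op (lc none) (var 0) (var 1),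
        op (rh q' default) (op (rc (some a)) (var 2) (var 3)) (op (lc none) (var 0) (var 1)))

/-- the laws: `IsLaw M l p q N t` says that `t = 1` is one of the laws for the input `l` -/
inductive IsLaw (M : TM0.Machine Γ Λ) (l : List Γ) (p q N : ℕ) : Tm (Sy Γ Λ) → Prop
  | l0 : IsLaw M l p q N (pow (var 0) N)
  | l1 : IsLaw M l p q N (pow (op al tA0 (tB0 l)) p)
  | l2 (s : Λ) (a : Γ) (o o2 : Option Γ) (s1 s2 t1 t2 : Tm (Sy Γ Λ))
      (h : rl M s a o o2 = some (s1, s2, t1, t2)) :
      IsLaw M l p q N (pow (op ep (op al t1 t2) (pow (op al s1 s2) p)) p)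
  | l3p (s : Λ) (a : Γ) (o : Option Γ) (h : M s a = none) :
      IsLaw M l p q N (pow (op ep
        (op ga (op (lc o) (var 0) (var 1)) (op (rh s a) (var 2) (var 3)))
        (pow (op al (op (lc o) (var 0) (var 1)) (op (rh s a) (var 2) (var 3))) p)) p)
  | l3q (s : Λ) (a : Γ) (o : Option Γ) (h : M s a = none) :
      IsLaw M l p q N (pow (op eq
        (op ga (op (lc o) (var 0) (var 1)) (op (rh s a) (var 2) (var 3)))
        (pow (op al (op (lc o) (var 0) (var 1)) (op (rh s a) (var 2) (var 3))) p)) q)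
  | l4p (s : Λ) (a : Γ) (o o2 : Option Γ) (s1 s2 t1 t2 : Tm (Sy Γ Λ))
      (h : rl M s a o o2 = some (s1, s2, t1, t2)) :
      IsLaw M l p q N (pow (op ep (op ga s1 s2) (op ga t1 t2)) p)
  | l4q (s : Λ) (a : Γ) (o o2 : Option Γ) (s1 s2 t1 t2 : Tm (Sy Γ Λ))
      (h : rl M s a o o2 = some (s1, s2, t1, t2)) :
      IsLaw M l p q N (pow (op eq (op ga s1 s2) (op ga t1 t2)) q)
  | l5p : IsLaw M l p q N (pow (op ep (op ga (var 0) (var 1)) (op ga tA0 (tB0 l))) p)
  | l5q : IsLaw M l p q N (pow (op eq (op ga (var 0) (var 1)) (op ga tA0 (tB0 l))) q)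
  | l6p : IsLaw M l p q N (pow (op ep (com (var 0) (var 1)) (op ga (var 0) (var 1))) p)
  | l6q : IsLaw M l p q N (pow (op eq (com (var 0) (var 1)) (op ga (var 0) (var 1))) q)

/-- the machine stops -/
def Hlt (M : TM0.Machine Γ Λ) (l : List Γ) : Prop :=
  (StateTransition.eval (TM0.step M) (TM0.init l)).Dom

end

/-- the symbols of the second kind -/
def IsE {Γ Λ : Type} : Sy Γ Λ → Prop
  | ep => True
  | eq => True
  | _ => False

/-- the operations vanish on commuting pairs, those of the second kind give the first entry -/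
structure Opv {Γ Λ : Type} (G : Type) [Group G] (v : Sy Γ Λ → G → G → G) : Prop where
  v1 : ∀ (j : Sy Γ Λ) (a b : G), a * b = b * a → ¬ IsE j → v j a b = 1
  vE : ∀ (j : Sy Γ Λ) (a b : G), a * b = b * a → IsE j → v j a b = a

/-- the abstract form of the limit group -/
structure AM {Γ Λ : Type} (N : ℕ) (G : Type) [Group G] (v : Sy Γ Λ → G → G → G)
    (ε : Sy Γ Λ → Col (Sy Γ Λ) → Col (Sy Γ Λ) → ℕ) (col : G → Col (Sy Γ Λ)) (rk : G → ℕ) :
    Prop where
  opv : Opv G v
  exp : ∀ g : G, g ^ N = 1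
  rkc : ∀ a b : G, a ≠ 1 → b ≠ 1 → a * b = b * a → rk a = rk b
  rk1 : ∀ (j : Sy Γ Λ) (a b : G), a * b ≠ b * a → rk a < rk (v j a b) ∧ rk b < rk (v j a b)
  ord : ∀ (j : Sy Γ Λ) (a b : G), a * b ≠ b * a → orderOf (v j a b) = ε j (col a) (col b)
  clr : ∀ (j : Sy Γ Λ) (a b : G), a * b ≠ b * a → col (v j a b) = Col.node j (col a) (col b)
  cmm : ∀ (j j' : Sy Γ Λ) (a b a' b' : G) (k : ℤ), a * b ≠ b * a → a' * b' ≠ b' * a' →
    v j a b ^ k ≠ 1 → v j a b ^ k * v j' a' b' = v j' a' b' * v j a b ^ k →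
    j = j' ∧ col a = col a' ∧ col b = col b'
  cmt : ∀ (j : Sy Γ Λ) (a b : G), a * b ≠ b * a →
    (a * b * a⁻¹ * b⁻¹) * v j a b ≠ v j a b * (a * b * a⁻¹ * b⁻¹)

section

variable {Γ Λ : Type} [Inhabited Γ] [Inhabited Λ]

/-- the facts: pairs of colours of configurations reached from a start configuration -/
inductive Fact (M : TM0.Machine Γ Λ) (l : List Γ) : Col (Sy Γ Λ) → Col (Sy Γ Λ) → Prop
  | start (f : ℕ → Col (Sy Γ Λ)) : Fact M l (ec f tA0) (ec f (tB0 l))
  | step (f : ℕ → Col (Sy Γ Λ)) (s : Λ) (a : Γ) (o o2 : Option Γ) (s1 s2 t1 t2 : Tm (Sy Γ Λ))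
      (h : rl M s a o o2 = some (s1, s2, t1, t2)) (h1 : Fact M l (ec f s1) (ec f s2)) :
      Fact M l (ec f t1) (ec f t2)

/-- a chain of colours -/
def cD (cx cy : Col (Sy Γ Λ)) : ℕ → Col (Sy Γ Λ)
  | 0 => Col.node (ex 0) cx cy
  | i + 1 => Col.node (ex 0) (cD cx cy i) (Col.node (ex 1) cx cy)

open Classical in
/-- the orders -/
noncomputable def eps (M : TM0.Machine Γ Λ) (l : List Γ) (p q : ℕ) (S : Set ℕ) :
    Sy Γ Λ → Col (Sy Γ Λ) → Col (Sy Γ Λ) → ℕ
  | al, c, c' => if Fact M l c c' then p else p * q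
  | ep, _, _ => p
  | eq, _, _ => q
  | ex k, c, c' => if k = 2 ∧ ∃ i ∈ S, ∃ cx cy, c = cD cx cy i ∧ c' = Col.node (ex 1) cx cy then p
      else p * q
  | _, _, _ => p * q

/-- a chain of terms -/
def tD : ℕ → Tm (Sy Γ Λ)
  | 0 => op (ex 0) (var 0) (var 1)
  | i + 1 => op (ex 0) (tD i) (op (ex 1) (var 0) (var 1))

/-- the independent laws -/
def tU (p i : ℕ) : Tm (Sy Γ Λ) := pow (op (ex 2) (tD i) (op (ex 1) (var 0) (var 1))) p

end

end Pool.Agent.Y45.MON
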