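import Pool.Agent.Y45.MON.StmV
import Pool.Agent.TH54.BU.BddFin

/-!
# Project MON (helper45): statements of the geometric jobs G1 … G12
-/

set_option autoImplicit false

namespace Pool.Agent.Y45.MON

open Pool.Agent.TH54.BU

/-- V9: `Setup.bdd` with variable exponents -/
def BddStmt : Prop := ∀ (G : Type) [Group G] (H : GH G) (c θ T : ℕ) (L : LS H c θ T)
  (K B p L1 Θ : ℕ) (n : L.ι → ℕ) (E : GH G) (M : Subgroup G) [M.Normal] (Q : GH (G ⧸ M))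
  (_ : Sv L K B p L1 Θ n E M Q) (R : ℕ)
  (_ : ∀ i, T * (R + θ + 100 * (H.D + c + 1)) + T * Θ + T * (2 * c + 1) + 24 * L.thr + 1 ≤ n i)
  (g : G) (_ : ¬ IsOfFinOrder g) (_ : H.len g ≤ R) (_ : IsOfFinOrder (g : G ⧸ M)), L.Short g

/-- G1: windows of a broken line along lines of one type. The line number `k` is
`v (k + 1)⟨x i⟩ = v k * cs k⟨x i⟩`. -/
def GenStmt : Prop := ∀ (G : Type) [Group G] (H : GH G) (c θ T : ℕ) (L : LS H c θ T) (i : L.ι)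
  (cs : ℕ → G) (f : ℕ → ℤ) (v : ℕ → G) (P : ℕ), Br L i cs f v → (∀ k, PC L i P (cs k)) →
  (∀ k, ((4 * P + 8 * L.thr + 8 : ℕ) : ℤ) < |f k|) →
  (∀ (k l : ℕ) (t : ℤ), k < l →
    |L.s i (v (k + 1)) (v (k + 1)) (v (l + 1) * L.x i ^ t)| ≤ P + L.thr) ∧
  (∀ (k l : ℕ) (t : ℤ), l < k →
    |L.s i (v (k + 1)) (v (l + 1) * L.x i ^ t) (v k * cs k)| ≤ P + L.thr) ∧
  (∀ k : ℕ, |L.s i (v (k + 1)) (v 0) (v k * cs k)| ≤ P + L.thr) ∧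
  (∀ k m : ℕ, k + 1 ≤ m → |L.s i (v (k + 1)) (v (k + 1)) (v m)| ≤ P + L.thr) ∧
  (∀ k m : ℕ, k + 1 ≤ m → |L.s i (v (k + 1)) (v 0) (v m) - f k| ≤ 2 * (P + L.thr)) ∧
  (∀ k l : ℕ, k < l → (v (k + 1))⁻¹ * v (l + 1) ∉ Subgroup.zpowers (L.x i)) ∧
  (∀ (j : L.ι) (w : G) (m : ℕ),
    (∀ k < m, ¬ (j = i ∧ (v (k + 1))⁻¹ * w ∈ Subgroup.zpowers (L.x i))) →
    |L.s j w (v 0) (v m)| ≤ 2 * L.thr ∨
      ∃ q < m, |L.s j w (v 0) (v m) - L.s j w (v q) (v q * cs q)| ≤ 2 * L.thr)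

/-- G2: bounded connectors -/
def PcbStmt : Prop := ∀ (G : Type) [Group G] (H : GH G) (c θ T : ℕ) (L : LS H c θ T) (i : L.ι)
  (g : G) (ρ : ℕ), g ∉ Subgroup.zpowers (L.x i) → H.len g ≤ ρ → PC L i (T * (ρ + c + θ)) g

/-- G2: windows of a broken line with bounded connectors -/
def GwinStmt : Prop := ∀ (G : Type) [Group G] (H : GH G) (c θ T : ℕ) (L : LS H c θ T) (i : L.ι)
  (cs : ℕ → G) (f : ℕ → ℤ) (v : ℕ → G) (ρ F : ℕ), Br L i cs f v → (∀ k, H.len (cs k) ≤ ρ) →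
  (∀ k, (cst L 0 ρ : ℤ) < |f k|) → (∀ k, |f k| ≤ F) →
  (∀ (j : L.ι) (w : G) (m : ℕ), |L.s j w (v 0) (v m)| ≤ F + cst L 0 ρ) ∧
  ∀ m : ℕ, 1 ≤ m → |L.s i (v 1) (v 0) (v m) - f 0| ≤ cst L 0 ρ

/-- G3: two broken lines with `E`-close ends visit the same lines -/
def MatchStmt : Prop := ∀ (G : Type) [Group G] (H : GH G) (c θ T : ℕ) (L : LS H c θ T)
  (E : GH G) (Θ : ℕ), L.Cone E Θ → 1 ≤ T → ∀ (i i' : L.ι) (cs cs' : ℕ → G) (f f' : ℕ → ℤ)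
  (v v' : ℕ → G) (ρ : ℕ), Br L i cs f v → Br L i' cs' f' v' → (∀ k, H.len (cs k) ≤ ρ) →
  (∀ k, H.len (cs' k) ≤ ρ) → (∀ k, (cst L Θ ρ : ℤ) < |f k|) → (∀ k, (cst L Θ ρ : ℤ) < |f' k|) →
  ∀ (e0 m m' : ℕ) (g h : G), E.len g ≤ e0 → E.len h ≤ e0 → g * v m = v' m' * h →
  ∃ σ : ℤ, ∀ k : ℕ, 10 * e0 + 100 ≤ k → k + 10 * e0 + 100 ≤ m → ∃ l : ℕ, (l : ℤ) = k + σ ∧
    l < m' ∧ i = i' ∧ |f k - f' l| ≤ cst L Θ ρ ∧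
    (v' (l + 1))⁻¹ * (g * v (k + 1)) ∈ Subgroup.zpowers (L.x i)

/-- G4: conjugacy modulo `M` gives equalities in `G` for large powers -/
def RgenStmt : Prop := ∀ (G : Type) [Group G] (H : GH G) (c θ T : ℕ) (L : LS H c θ T)
  (n : L.ι → ℕ) (M : Subgroup G) (_ : Fv L n M) (E : GH G) (Θ : ℕ) (_ : L.Cone E Θ) (A : ℕ)
  (W W' h : G), 1 ≤ T → T * Θ + 1 ≤ A →
  (∀ i, 4 * A + 24 * L.thr + T * (2 * c + 1) ≤ n i) →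
  (∀ (N : ℕ) (j : L.ι) (u : G), |L.s j u 1 (W ^ N)| < A) →
  (∀ (N : ℕ) (j : L.ι) (u : G), |L.s j u 1 (W' ^ N)| < A) →
  h * W * h⁻¹ * W'⁻¹ ∈ M →
  ∀ N : ℕ, ∃ m ∈ M, ∃ h2 : G, (m * h) * W ^ N = W' ^ N * h2 ∧ E.len (m * h) ≤ E.len h ∧
    E.len h2 ≤ E.len h

/-- the connectors of the words -/
def cs4 {G : Type} [Group G] (δ : ℕ) (α β : G) (k : ℕ) : G :=
  if k % 4 = 0 then α ^ δ else if k % 4 = 1 then β else if k % 4 = 2 then α⁻¹ else β⁻¹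

/-- G5: the gauge argument, four connectors -/
def Gauge4Stmt : Prop := ∀ (G : Type) [Group G] (x : G), ¬ IsOfFinOrder x →
  (∀ g : G, g ∉ Subgroup.zpowers x → ∀ a b : ℤ, x ^ a * g = g * x ^ b → a = 0) →
  ∀ (α β α' β' : G) (δ : ℕ), δ = 1 ∨ δ = 2 → α ∉ Subgroup.zpowers x →
  α ^ δ ∉ Subgroup.zpowers x → β ∉ Subgroup.zpowers x → ∀ (e : ℕ → ℤ), (∀ k, e (k + 4) = e k) →
  ∀ (v v' : ℕ → G), v 0 = 1 → v' 0 = 1 → (∀ k, v (k + 1) = v k * cs4 δ α β k * x ^ e k) →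
  (∀ k, v' (k + 1) = v' k * cs4 δ α' β' k * x ^ e k) →
  ∀ (g : G) (k0 l0 : ℕ), l0 % 4 = k0 % 4 →
  (∀ r ≤ 8, (v' (l0 + r + 1))⁻¹ * (g * v (k0 + r + 1)) ∈ Subgroup.zpowers x) →
  ∃ s t : ℤ, α' = x ^ s * α * x ^ (-s) ∧ β' = x ^ s * β * x ^ (-s) ∧ g = x ^ s * (v 4) ^ t

/-- G5: the gauge argument, two connectors -/
def Gauge2Stmt : Prop := ∀ (G : Type) [Group G] (x : G), ¬ IsOfFinOrder x →
  (∀ g : G, g ∉ Subgroup.zpowers x → ∀ a b : ℤ, x ^ a * g = g * x ^ b → a = 0) →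
  ∀ (α : G), α ∉ Subgroup.zpowers x → ∀ (φ : ℤ) (v : ℕ → G), v 0 = 1 →
  (∀ k, v (k + 1) = v k * (if k % 2 = 0 then α else α⁻¹) * x ^ (if k % 2 = 0 then φ else -φ)) →
  ∀ (g : G) (k0 l0 : ℕ), l0 % 2 = k0 % 2 →
  (∀ r ≤ 4, (v (l0 + r + 1))⁻¹ * (g * v (k0 + r + 1)) ∈ Subgroup.zpowers x) →
  ∃ t : ℤ, g = (v 2) ^ t

/-- G5: comparison of the exponents -/
def PatStmt : Prop := ∀ (r : ℕ) (μ : Fin r → ℕ → ℕ), (∀ j l, (μ j l).Prime) →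
  (∀ j l, μ j (l + 4) = μ j l) → (∀ j j' l l', l < 4 → l' < 4 → μ j l = μ j' l' → j = j' ∧ l = l') →
  ∀ (B C : ℕ), C < B → ∀ (e e' : ℤ), e ≠ 0 → e' ≠ 0 → ∀ (j j' : Fin r) (k0 : ℕ) (σ : ℤ),
  ((∀ k : ℕ, k0 ≤ k → k ≤ k0 + 8 → ∃ l : ℕ, (l : ℤ) = k + σ ∧
      |e * (B * μ j k) - e' * (B * μ j' l)| ≤ C) → j = j' ∧ e = e' ∧ (4 : ℤ) ∣ σ) ∧
  ¬ (∀ k : ℕ, k0 ≤ k → k ≤ k0 + 8 → ∃ l : ℕ, (l : ℤ) = k + σ ∧
      |e * (B * μ j k) + e' * (B * μ j' (3 * l + 2))| ≤ C)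

/-- G6: the product of two rotations far apart has infinite order in the quotient
(`Setup.key` with two different rotations and variable exponents) -/
def Key2Stmt : Prop := ∀ (G : Type) [Group G] (H : GH G) (c θ T : ℕ) (L : LS H c θ T)
  (K B p L1 Θ : ℕ) (n : L.ι → ℕ) (E : GH G) (M : Subgroup G) [M.Normal] (Q : GH (G ⧸ M))
  (_ : Sv L K B p L1 Θ n E M Q)
  (_ : ∀ i, 2 * T * Θ + 24 * L.thr + 10 * T * (2 * c + 1) +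
    4 * T * (100 * (2 * B + θ + 400 * (H.D + c + 1))) + 4 ≤ n i)
  (x x' y : G) (_ : IsOfFinOrder x) (_ : x ≠ 1) (_ : H.len x ≤ 1)
  (_ : IsOfFinOrder x') (_ : x' ≠ 1) (_ : H.len x' ≤ 1)
  (_ : 100 * (2 * B + θ + 400 * (H.D + c + 1)) + 2 ≤ H.len y)
  (_ : ∀ m ∈ M, H.len y ≤ H.len (m * y)),
  ¬ IsOfFinOrder ((x * y * x' * y⁻¹ : G) : G ⧸ M)

/-- G7: a line cannot follow both `y` and `g y` -/
def Turn2Stmt : Prop := ∀ (G : Type) [Group G] (H : GH G) (c θ T : ℕ) (L : LS H c θ T) (r : ℕ)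
  (g y : G), H.len g ≤ r → ∀ (j : L.ι) (w : G), w⁻¹ * (g⁻¹ * w) ∉ Subgroup.zpowers (L.x j) →
  L.D j w 1 y ≤ θ + 100 * (H.D + c + r + 1) ∨ L.D j w 1 (g * y) ≤ θ + 100 * (H.D + c + r + 1)

/-- a large constant -/
def cstT {G : Type} [Group G] {H : GH G} {c θ T : ℕ} (_ : LS H c θ T) : ℕ :=
  10 ^ 7 * ((T + 1) * (c + θ + H.D + 1)) ^ 2

/-- G8: the windows of a conjugate of a power of `x j` -/
def TauStmt : Prop := ∀ (G : Type) [Group G] (H : GH G) (c θ T : ℕ) (L : LS H c θ T)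
  (n : L.ι → ℕ) (M : Subgroup G) (_ : Fv L n M) (_ : ∀ i, cstT L ≤ n i) (j : L.ι) (l : ℤ) (y : G),
  l ≠ 0 → 2 * |l| ≤ n j → (∀ m ∈ M, ∀ t : ℤ, H.len y ≤ H.len (m * y * L.x j ^ t)) →
  ∀ (i : L.ι) (u : G), 2 * |L.s i u 1 (y * L.x j ^ l * y⁻¹)| ≤ n i + cstT L

/-- G9: a product of two new torsion elements, one of them large, has infinite order -/
def NewStmt : Prop := ∀ (G : Type) [Group G] (H : GH G) (c θ T : ℕ) (L : LS H c θ T)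
  (n : L.ι → ℕ) (M : Subgroup G) [M.Normal] (_ : Fv L n M) (_ : ∀ i, 4 * cstT L ≤ n i)
  (i : L.ι) (k1 k2 : ℤ) (b : G), (cst L 0 0 : ℤ) ≤ |k1| → 2 * |k1| ≤ n i → k2 ≠ 0 →
  2 * |k2| ≤ n i → (∀ s : ℤ, L.x i ^ s * b ∉ M) →
  ¬ IsOfFinOrder ((L.x i ^ k1 * b * L.x i ^ k2 * b⁻¹ : G) : G ⧸ M)

/-- G10: the order of `x i` in the quotient -/
def OrdStmt : Prop := ∀ (G : Type) [Group G] (H : GH G) (c θ T : ℕ) (L : LS H c θ T)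
  (n : L.ι → ℕ) (M : Subgroup G) (_ : Fv L n M) (_ : ∀ i, 4 * cstT L ≤ n i)
  (i : L.ι) (k : ℤ), L.x i ^ k ∈ M → (n i : ℤ) ∣ k

/-- G10: conjugacy of new torsion elements -/
def ConjNStmt : Prop := ∀ (G : Type) [Group G] (H : GH G) (c θ T : ℕ) (L : LS H c θ T)
  (n : L.ι → ℕ) (M : Subgroup G) (_ : Fv L n M) (_ : ∀ i, 4 * cstT L ≤ n i)
  (i j : L.ι) (k l : ℤ) (y : G), ¬ (n i : ℤ) ∣ k →
  y * L.x j ^ l * y⁻¹ * (L.x i ^ k)⁻¹ ∈ M →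
  i = j ∧ (∃ s : ℤ, L.x i ^ s * y ∈ M) ∧ (n i : ℤ) ∣ k - l

/-- G10: new torsion elements are not conjugate to old ones -/
def ConjOStmt : Prop := ∀ (G : Type) [Group G] (H : GH G) (c θ T : ℕ) (L : LS H c θ T)
  (n : L.ι → ℕ) (M : Subgroup G) (_ : Fv L n M) (_ : ∀ i, 4 * cstT L ≤ n i)
  (j : L.ι) (l : ℤ) (x' y : G), IsOfFinOrder x' → x' ≠ 1 → H.len x' ≤ 1 →
  y * L.x j ^ l * y⁻¹ * x'⁻¹ ∉ M

/-- G10: conjugacy of old torsion elements (`lift_conj` with variable exponents) -/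
def ConjTStmt : Prop := ∀ (G : Type) [Group G] (H : GH G) (c θ T : ℕ) (L : LS H c θ T)
  (n : L.ι → ℕ) (M : Subgroup G) (_ : Fv L n M) (_ : ∀ i, 4 * cstT L ≤ n i)
  (x x' y : G), IsOfFinOrder x' → x' ≠ 1 → H.len x ≤ 1 → H.len x' ≤ 1 →
  y * x * y⁻¹ * x'⁻¹ ∈ M → ∃ m ∈ M, (m * y) * x * (m * y)⁻¹ = x'

/-- the word `α ^ δ x ^ (e 0) β x ^ (e 1) α⁻¹ x ^ (e 2) β⁻¹ x ^ (e 3)` -/
def wd {G : Type} [Group G] (δ : ℕ) (e : ℕ → ℤ) (α β x : G) : G :=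
  α ^ δ * x ^ e 0 * β * x ^ e 1 * α⁻¹ * x ^ e 2 * β⁻¹ * x ^ e 3

/-- a frame: bounded connectors outside `⟨x i⟩` -/
structure Fr {G : Type} [Group G] {H : GH G} {c θ T : ℕ} (L : LS H c θ T) (ρ E1 : ℕ) (i : L.ι)
    (e : ℤ) (δ : ℕ) (α β : G) : Prop where
  e0 : e ≠ 0
  e1 : |e| ≤ E1
  la : H.len α ≤ ρ
  lad : H.len (α ^ δ) ≤ ρ
  lb : H.len β ≤ ρ
  na : α ∉ Subgroup.zpowers (L.x i)
  nad : α ^ δ ∉ Subgroup.zpowers (L.x i)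
  nb : β ∉ Subgroup.zpowers (L.x i)

/-- G11: the words are rigid in the quotient -/
def RigStmt : Prop := ∀ (G : Type) [Group G] (H : GH G) (c θ T : ℕ) (L : LS H c θ T)
  (n : L.ι → ℕ) (M : Subgroup G) [M.Normal] (_ : Fv L n M) (E : GH G) (Θ : ℕ) (_ : L.Cone E Θ),
  1 ≤ T → (∀ i, Prim (L.x i)) → ∀ (r : ℕ) (δ : Fin r → ℕ) (μ : Fin r → ℕ → ℕ),
  (∀ j, δ j = 1 ∨ δ j = 2) → (∀ j l, (μ j l).Prime) → (∀ j l, μ j (l + 4) = μ j l) →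
  (∀ j j' l l', l < 4 → l' < 4 → μ j l = μ j' l' → j = j' ∧ l = l') →
  ∀ (ρ E1 B0 F : ℕ), cst L Θ ρ < B0 → (∀ j l, E1 * (B0 * μ j l) ≤ F) →
  (∀ i, 100 * (F + cst L Θ ρ) ≤ n i) →
  ∀ (j : Fin r) (i : L.ι) (e : ℤ) (α β : G), Fr L ρ E1 i e (δ j) α β →
  ¬ IsOfFinOrder ((wd (δ j) (fun l => e * (B0 * μ j l)) α β (L.x i) : G) : G ⧸ M) ∧
  (∀ q : G ⧸ M, q * (wd (δ j) (fun l => e * (B0 * μ j l)) α β (L.x i) : G) =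
      (wd (δ j) (fun l => e * (B0 * μ j l)) α β (L.x i) : G) * q →
    ∃ t : ℤ, q = ((wd (δ j) (fun l => e * (B0 * μ j l)) α β (L.x i) : G) : G ⧸ M) ^ t) ∧
  (∀ (z : G) (t : ℤ), H.len z ≤ ρ → t ≠ 0 →
    (z : G ⧸ M) ≠ ((wd (δ j) (fun l => e * (B0 * μ j l)) α β (L.x i) : G) : G ⧸ M) ^ t) ∧
  ∀ (j' : Fin r) (i' : L.ι) (e' : ℤ) (α' β' : G), Fr L ρ E1 i' e' (δ j') α' β' → ∀ q : G ⧸ M,
    (q * (wd (δ j) (fun l => e * (B0 * μ j l)) α β (L.x i) : G) * q⁻¹ =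
        (wd (δ j') (fun l => e' * (B0 * μ j' l)) α' β' (L.x i') : G) →
      j = j' ∧ ∃ g : G, α' = g * α * g⁻¹ ∧ β' = g * β * g⁻¹) ∧
    q * (wd (δ j) (fun l => e * (B0 * μ j l)) α β (L.x i) : G) * q⁻¹ ≠
        ((wd (δ j') (fun l => e' * (B0 * μ j' l)) α' β' (L.x i') : G) : G ⧸ M)⁻¹

/-- G12: the commutator words `α x ^ φ α⁻¹ x ^ (-φ)` -/
def Rig2Stmt : Prop := ∀ (G : Type) [Group G] (H : GH G) (c θ T : ℕ) (L : LS H c θ T)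
  (n : L.ι → ℕ) (M : Subgroup G) [M.Normal] (_ : Fv L n M) (E : GH G) (Θ : ℕ) (_ : L.Cone E Θ),
  1 ≤ T → (∀ i, Prim (L.x i)) → ∀ (ρ : ℕ) (φ : ℤ) (i : L.ι) (α : G), H.len α ≤ ρ →
  α ∉ Subgroup.zpowers (L.x i) → (cst L Θ ρ : ℤ) < |φ| →
  (∀ i, 100 * (|φ| + cst L Θ ρ) ≤ n i) →
  ¬ IsOfFinOrder ((α * L.x i ^ φ * α⁻¹ * L.x i ^ (-φ) : G) : G ⧸ M) ∧
  ∀ z : G, H.len z ≤ ρ → z ≠ 1 →
    (z : G ⧸ M) * (α * L.x i ^ φ * α⁻¹ * L.x i ^ (-φ) : G) ≠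
      (α * L.x i ^ φ * α⁻¹ * L.x i ^ (-φ) : G) * (z : G ⧸ M)

end Pool.Agent.Y45.MON
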