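import Pool.Agent.Y45.MON.StmL

/-!
# Project MON (helper45): statements of the jobs S1 … S5 (one step) and LimA, LimB (the limit)
-/

set_option autoImplicit false

namespace Pool.Agent.Y45.MON

open Pool.Agent.TH54.BU

/-- the bound for the conjugators -/
def tb (D c T R : ℕ) : ℕ := R + 10 * (D + c + 1) * (Nat.clog 2 T + 10 * (D + c + 1))

/-- S1: frames -/
def FrameStmt : Prop := ∀ (G : Type) [Group G] (H : GH G) (c θ T : ℕ) (L : LS H c θ T) (R : ℕ)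
  (g : G), L.Short g → ¬ IsOfFinOrder g → H.len g ≤ R →
  ∃ (i : L.ι) (u : G) (e : ℤ), g = u * L.x i ^ e * u⁻¹ ∧ e ≠ 0 ∧ |e| ≤ T * R + 1 ∧
    H.len u ≤ tb H.D c T R

/-- S2: the words `Wj` -/
def WrStmt : Prop := ∀ (G : Type) [Group G] (H : GH G) (c θ T : ℕ) (L : LS H c θ T)
  (n : L.ι → ℕ) (M : Subgroup G) [M.Normal] (_ : Fv L n M) (E : GH G) (Θ : ℕ) (_ : L.Cone E Θ),
  1 ≤ T → (∀ i, Prim (L.x i)) → (∀ z, ¬ IsOfFinOrder z → H.len z ≤ 1 → L.Short z) →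
  (∀ g ∈ M, H.len g ≤ 20 → g = 1) → ∀ (r : ℕ) (w : WP r) (μ : Fin r → ℕ → ℕ) (ρ B0 F : ℕ),
  (∀ j, w.δ j = 1 ∨ w.δ j = 2) → (∀ j l, (μ j l).Prime) → (∀ j l, μ j (l + 4) = μ j l) →
  (∀ j j' l l', l < 4 → l' < 4 → μ j l = μ j' l' → j = j' ∧ l = l') →
  (∀ j (l : Fin 4), w.e j l = B0 * μ j l) → 2 * tb H.D c T 1 + 4 ≤ ρ → cst L Θ ρ < B0 →
  (∀ j l, (T + 1) * (B0 * μ j l) ≤ F) → (∀ i, 100 * (F + cst L Θ ρ) ≤ n i) →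
  ∀ a b X, Gd H a b X → ∀ j, ¬ IsOfFinOrder ((Wj w j a b X : G) : G ⧸ M) ∧
    E.len (Wj w j a b X) ≤ 8 * tb H.D c T 1 + 20 ∧
    (∀ q : G ⧸ M, q * (Wj w j a b X : G) = (Wj w j a b X : G) * q →
      ∃ t : ℤ, q = ((Wj w j a b X : G) : G ⧸ M) ^ t) ∧
    (a * b ≠ b * a → ((a * b * a⁻¹ * b⁻¹ : G) : G ⧸ M) * (Wj w j a b X : G) ≠
      (Wj w j a b X : G) * ((a * b * a⁻¹ * b⁻¹ : G) : G ⧸ M)) ∧
    ∀ a' b' X', Gd H a' b' X' → ∀ (j' : Fin r) (q : G ⧸ M),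
      (q * (Wj w j a b X : G) * q⁻¹ = (Wj w j' a' b' X' : G) →
        j = j' ∧ ∃ g : G, a' = g * a * g⁻¹ ∧ b' = g * b * g⁻¹) ∧
      q * (Wj w j a b X : G) * q⁻¹ ≠ ((Wj w j' a' b' X' : G) : G ⧸ M)⁻¹

/-- S3: the words `X1` -/
def XaStmt : Prop := ∀ (G : Type) [Group G] (H : GH G) (c θ T : ℕ) (L : LS H c θ T)
  (K B p L1 Θ : ℕ) (n : L.ι → ℕ) (E : GH G) (M : Subgroup G) [M.Normal] (Q : GH (G ⧸ M))
  (_ : Sv L K B p L1 Θ n E M Q) (R0 ρ M1 m2 : ℕ), 1 ≤ R0 →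
  R0 + 2 * tb H.D c T (2 * R0 + 2) + 1 ≤ ρ → cst L Θ ρ < m2 →
  (∀ i, 100 * ((T * (2 * R0 + 2) + 1) * m2 + cst L Θ ρ) ≤ n i) →
  (∀ i, T * (2 * R0 + 2 + θ + 100 * (H.D + c + 1)) + T * Θ + T * (2 * c + 1) +
    24 * L.thr + 1 ≤ n i) →
  ∀ a1 b1 : G, IsOfFinOrder a1 → Sp H a1 → H.len b1 ≤ R0 → ¬ IsOfFinOrder (P0 M1 a1 b1) →
    IsOfFinOrder ((P0 M1 a1 b1 : G) : G ⧸ M) →
    ¬ IsOfFinOrder ((X1 M1 m2 a1 b1 : G) : G ⧸ M) ∧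
      E.len (X1 M1 m2 a1 b1) ≤ 4 * tb H.D c T (2 * R0 + 2) + 10 ∧
      ∀ z, H.len z ≤ R0 → z ≠ 1 → (z : G ⧸ M) * (X1 M1 m2 a1 b1 : G) ≠
        (X1 M1 m2 a1 b1 : G) * (z : G ⧸ M)

/-- S4: pull back of pairs -/
def PbStmt : Prop := ∀ (G : Type) [Group G] (H : GH G) (c θ T : ℕ) (L : LS H c θ T)
  (K B p L1 Θ : ℕ) (n : L.ι → ℕ) (E : GH G) (M : Subgroup G) [M.Normal] (Q : GH (G ⧸ M))
  (_ : Sv L K B p L1 Θ n E M Q) (M1 R0 : ℕ),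
  (∀ g : G, IsOfFinOrder g → ∃ u : G, Sp H (u * g * u⁻¹)) →
  (∀ q : G ⧸ M, IsOfFinOrder q → ∃ g : G, (g : G ⧸ M) = q ∧ (IsOfFinOrder g ∨ L.Short g)) →
  (∀ i, Odd (n i)) → cst L 0 0 ≤ M1 → (∀ i, Nat.Coprime (n i) M1) → Nat.Coprime p M1 →
  (∀ i, 2 * (cst L 0 0 * M1) ≤ n i) → (∀ i, 4 * cstT L ≤ n i) →
  (∀ i, 2 * T * Θ + 24 * L.thr + 10 * T * (2 * c + 1) +
    4 * T * (100 * (2 * B + θ + 400 * (H.D + c + 1))) + 4 ≤ n i) →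
  100 * (2 * B + θ + 400 * (H.D + c + 1)) + 2 ≤ R0 →
  ∀ a b : G ⧸ M, IsOfFinOrder a → a * b ≠ b * a → IsOfFinOrder (P0 M1 a b) →
    ∃ (a1 b1 : G) (h : G ⧸ M), IsOfFinOrder a1 ∧ Sp H a1 ∧ H.len b1 ≤ R0 ∧
      (a1 : G ⧸ M) = h * a * h⁻¹ ∧ (b1 : G ⧸ M) = h * b * h⁻¹

/-- S5: assembly of one step -/
def StepJob : Prop := WrStmt → XaStmt → PbStmt → GrStmt → QuoStmt → StabTorStmt → MixStmt →
  OrdStmt → ConjNStmt → ConjOStmt → ConjTStmt → StepStmt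

open Classical in
/-- the exponents given by the marks -/
noncomputable def exo {r : ℕ} {C G : Type} [Group G] (N : ℕ) (ε : Fin r → C → C → ℕ)
    (Mk : G → Fin r → C → C → Prop) (g : G) : ℕ :=
  if h : ∃ m : Fin r × C × C, Mk g m.1 m.2.1 m.2.2 ∨ Mk g⁻¹ m.1 m.2.1 m.2.2 then
    ε h.choose.1 h.choose.2.1 h.choose.2.2 else N

/-- the sequence of groups with colours and marks -/
structure Sq {r : ℕ} (w : WP r) (R0 N : ℕ) {C : Type} (Φ : Fin r → C → C → C)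
    (ε : Fin r → C → C → ℕ) (G : ℕ → Type) [∀ n, Group (G n)] (H : ∀ n, GH (G n))
    (f : ∀ n, G n →* G (n + 1)) (col : ∀ n, G n → C) (Mk : ∀ n, G n → Fin r → C → C → Prop)
    (Xs : ∀ n, Set (G n)) : Prop where
  free : ∀ g : G 0, IsOfFinOrder g → g = 1
  gen : ∃ x y : G 0, Subgroup.closure {x, y} = ⊤ ∧ x * y ≠ y * x ∧ (H 0).len x ≤ 1 ∧
    (H 0).len y ≤ 1
  tor : ∀ n, Tor (G n) N
  st : ∀ n, StepX w R0 (exo N ε (Mk n)) (Xs n) (H n) (H (n + 1)) (f n)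
  ts : ∀ (n : ℕ) (g : G n), IsOfFinOrder g → ∃ u : G n, Sp (H n) (u * g * u⁻¹)
  colc : ∀ (n : ℕ) (u g : G n), col n (u * g * u⁻¹) = col n g
  colo : ∀ (n : ℕ) (g : G n), IsOfFinOrder g → col (n + 1) (f n g) = col n g
  coln : ∀ (n : ℕ) (x u : G n) (k : ℤ) (j : Fin r) (c c' : C), x ∈ Xs n →
    (Mk n x j c c' ∨ Mk n x⁻¹ j c c') → f n (x ^ k) ≠ 1 →
    col (n + 1) (f n (u * x ^ k * u⁻¹)) = Φ j c c'
  mkc : ∀ (n : ℕ) (u g : G n) (j : Fin r) (c c' : C), Mk n g j c c' → Mk n (u * g * u⁻¹) j c c'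
  mku : ∀ (n : ℕ) (g : G n) (j j' : Fin r) (c c' d d' : C), Mk n g j c c' → Mk n g j' d d' →
    j = j' ∧ c = d ∧ c' = d'
  mki : ∀ (n : ℕ) (g : G n) (j j' : Fin r) (c c' d d' : C), Mk n g j c c' → ¬ Mk n g⁻¹ j' d d'
  mka : ∀ (n : ℕ) (a b X : G n) (j : Fin r), Gd (H n) a b X →
    Mk (n + 1) (f n (Wj w j a b X)) j (col (n + 1) (f n a)) (col (n + 1) (f n b))

/-- LimA: existence of the sequence -/
def SqStmt : Prop := ∀ (r : ℕ) (δ : Fin r → ℕ), (∀ j, δ j = 1 ∨ δ j = 2) →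
  ∃ (w : WP r) (R0 n0 : ℕ), w.δ = δ ∧ 1 ≤ R0 ∧ 3 ≤ n0 ∧
    ∀ N : ℕ, N ≠ 1 → (∀ q : ℕ, q.Prime → q ∣ N → n0 ≤ q) →
      ∀ (C : Type) (_ : Inhabited C) (Φ : Fin r → C → C → C) (ε : Fin r → C → C → ℕ),
      (∀ j c c', ε j c c' ∣ N ∧ ε j c c' ≠ 1) →
      ∃ (G : ℕ → Type) (_ : ∀ n, Group (G n)) (H : ∀ n, GH (G n)) (f : ∀ n, G n →* G (n + 1))
        (col : ∀ n, G n → C) (Mk : ∀ n, G n → Fin r → C → C → Prop) (Xs : ∀ n, Set (G n)),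
        Sq w R0 N Φ ε G H f col Mk Xs

/-- LimB: the limit of the sequence -/
def LimStmt : Prop := ∀ (r : ℕ) (w : WP r) (R0 N : ℕ) (C : Type) (Φ : Fin r → C → C → C)
  (ε : Fin r → C → C → ℕ) (G : ℕ → Type) (_ : ∀ n, Group (G n)) (H : ∀ n, GH (G n))
  (f : ∀ n, G n →* G (n + 1)) (col : ∀ n, G n → C) (Mk : ∀ n, G n → Fin r → C → C → Prop)
  (Xs : ∀ n, Set (G n)), 1 ≤ R0 → (∀ q : ℕ, q.Prime → q ∣ N → 3 ≤ q) →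
  (∀ j c c', ε j c c' ∣ N ∧ ε j c c' ≠ 1) → Sq w R0 N Φ ε G H f col Mk Xs →
  ∃ (L : Type) (_ : Group L) (colL : L → C) (rk : L → ℕ), MonP w N Φ ε L colL rk

theorem mon_of (h1 : SqStmt) (h2 : LimStmt) : MonStmt := by
  intro r δ hδ
  obtain ⟨w, R0, n0, h3, h4, h5, h6⟩ := h1 r δ hδ
  refine ⟨w, n0, h3, h5, ?_⟩
  intro N hN hq C iC Φ ε hε
  obtain ⟨G, iG, H, f, col, Mk, Xs, hS⟩ := h6 N hN hq C iC Φ ε hε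
  exact h2 r w R0 N C Φ ε G iG H f col Mk Xs h4 (fun q hq1 hq2 => h5.trans (hq q hq1 hq2)) hε hS

end Pool.Agent.Y45.MON
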