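import Pool.Agent.Y45.MON.Defs
import Pool.Agent.TH54.BU.MixQ
import Pool.Agent.TH54.BU.Key

/-!
# Project MON (helper45): statements of the jobs V1 … V8 (variable exponents)

Each statement is the statement of a theorem of `Pool.Agent.TH54.BU` with `n : ℕ` replaced by
`n : L.ι → ℕ`, `Fil` by `Fv`, `Setup` by `Sv`.
-/

set_option autoImplicit false

namespace Pool.Agent.Y45.MON

open Pool.Agent.TH54.BU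

/-- V1: `LS.fil` -/
def GrStmt : Prop := ∀ (G : Type) [Group G] (H : GH G) (c θ T : ℕ) (L : LS H c θ T)
  (n : L.ι → ℕ), (∀ i, 40 * L.thr + 1 ≤ n i) →
  Fv L n (Subgroup.normalClosure (Set.range fun i => L.x i ^ n i))

/-- V2: `LS.close` -/
def CloseStmt : Prop := ∀ (G : Type) [Group G] (H : GH G) (c θ T : ℕ) (L : LS H c θ T)
  (n : L.ι → ℕ) (M : Subgroup G) (_ : Fv L n M) (A k : ℕ)
  (_ : ∀ i, k * A + 12 * L.thr ≤ n i) (_ : ∀ i, 24 * L.thr + T * (2 * c + 1) ≤ n i)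
  (Rel : ℕ → G → G → Prop)
  (_ : ∀ j < k, ∀ m ∈ M, ∀ a b, Rel j a b → Rel j (m * a) (m * b))
  (_ : ∀ j < k, ∀ a b, Rel j a b → ∀ (i : L.ι) (u : G), (A : ℤ) ≤ |L.s i u a b| →
    ∀ l : ℤ, Rel j a (L.rt i u (n i * l) * b))
  (P : ℕ → G) (_ : ∀ j < k, Rel j (P j) (P (j + 1))) (_ : ∃ m ∈ M, P k = m * P 0),
  ∃ P' : ℕ → G, (∀ j < k, Rel j (P' j) (P' (j + 1))) ∧ P' k = P' 0 ∧
    ∀ j ≤ k, ∃ m ∈ M, P' j = m * P j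

/-- V2: `LS.cone_min` -/
def ConeMinStmt : Prop := ∀ (G : Type) [Group G] (H : GH G) (c θ T : ℕ) (L : LS H c θ T)
  (n : L.ι → ℕ) (M : Subgroup G) (_ : Fv L n M) (E : GH G) (Θ : ℕ) (_ : L.Cone E Θ)
  (_ : ∀ i, T * (2 * c + 1) + 24 * L.thr ≤ n i) (p q : G)
  (_ : ∀ (i : L.ι) (u : G), |L.s i u p q| + T * Θ + 12 * L.thr < n i) (m : G) (_ : m ∈ M),
  E.d p q ≤ E.d p (m * q)

/-- V2: `LS.reduced` -/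
def ReducedStmt : Prop := ∀ (G : Type) [Group G] (H : GH G) (c θ T : ℕ) (L : LS H c θ T)
  (n : L.ι → ℕ) (M : Subgroup G) (_ : Fv L n M) (E : GH G) (Θ : ℕ) (_ : L.Cone E Θ)
  (_ : ∀ i, T * (2 * c + 1) + 2 * T * Θ ≤ n i) (g : G),
  ∃ m ∈ M, (∀ m' ∈ M, E.len (m * g) ≤ E.len (m' * g)) ∧
    ∀ (i : L.ι) (u : G), 2 * |L.s i u 1 (m * g)| < n i + T * (2 * c + 1)

/-- V3: `LS.exists_quo` -/
def QuoStmt : Prop := ∀ (G : Type) [Group G] (H : GH G) (c θ T : ℕ) (L : LS H c θ T)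
  (n : L.ι → ℕ) (M : Subgroup G) [M.Normal] (_ : Fv L n M) (E : GH G) (Θ : ℕ) (_ : L.Cone E Θ)
  (_ : 1 ≤ T) (_ : ∀ i, 24 * L.thr + T * (2 * c + 1) + 4 * (T * Θ + 1) ≤ n i),
  ∃ Q : GH (G ⧸ M), Q.D = 2 * E.D + 2 ∧ (∀ g : G, Q.len (g : G ⧸ M) ≤ E.len g) ∧
    ∀ q : G ⧸ M, ∃ g : G, (g : G ⧸ M) = q ∧ E.len g = Q.len q

/-- V4: `LS.angle` -/
def AngleStmt : Prop := ∀ (G : Type) [Group G] (H : GH G) (c θ T : ℕ) (L : LS H c θ T)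
  (n : L.ι → ℕ) (M : Subgroup G) (_ : ∀ (i : L.ι) (u : G) (k : ℤ), L.rt i u (n i * k) ∈ M)
  (z : G) (_ : ∀ m ∈ M, ∀ u : G, H.len z ≤ H.len (u⁻¹ * (m * z) * u))
  (_ : 4 * H.D + 4 ≤ H.len z) (_ : ¬ L.Short z)
  (_ : ∀ i, T * (1000 * (H.D + c + θ + 1)) ≤ n i) (i : L.ι) (u : G) (a b : ℤ),
  2 * |L.s i u (z ^ a) (z ^ b)| ≤ n i + T * (1000 * (H.D + c + θ + 1))

/-- V4: `LS.surv` -/
def SurvStmt : Prop := ∀ (G : Type) [Group G] (H : GH G) (c θ T : ℕ) (L : LS H c θ T)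
  (n : L.ι → ℕ) (M : Subgroup G) [M.Normal] (_ : Fv L n M) (E : GH G) (Θ : ℕ) (_ : L.Cone E Θ)
  (_ : ∀ i, T * (2 * c + 1) + 24 * L.thr ≤ n i)
  (Q : GH (G ⧸ M)) (_ : ∀ q : G ⧸ M, ∃ g : G, (g : G ⧸ M) = q ∧ E.len g = Q.len q)
  (z : G) (_ : H.CMin z) (_ : 4 * H.D + 4 ≤ H.len z) (_ : ¬ L.Short z)
  (_ : ∀ (i : L.ι) (u : G) (a b : ℤ),
    |L.s i u (z ^ a) (z ^ b)| + T * Θ + 12 * L.thr < n i) (m : ℕ),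
  m ≤ (2 * (θ + 2 * Θ + 100 * (H.D + c + 1) + 2)) * Q.len ((z : G ⧸ M) ^ m)

/-- V4: `Setup.stab_tor` -/
def StabTorStmt : Prop := ∀ (G : Type) [Group G] (H : GH G) (c θ T : ℕ) (L : LS H c θ T)
  (K B p L1 Θ : ℕ) (n : L.ι → ℕ) (E : GH G) (M : Subgroup G) [M.Normal] (Q : GH (G ⧸ M))
  (_ : Sv L K B p L1 Θ n E M Q)
  (_ : ∀ i, 4 * T * (1000 * (H.D + c + θ + 1)) + 4 * T * Θ + 48 * L.thr + 4 ≤ n i),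
  Q.Stab (2 * (θ + 2 * Θ + 100 * (H.D + c + 1) + 2)) ∧
    ∀ q : G ⧸ M, IsOfFinOrder q → ∃ g : G, (g : G ⧸ M) = q ∧ (IsOfFinOrder g ∨ L.Short g)

/-- V5: `LS.rigid` -/
def RigidStmt : Prop := ∀ (G : Type) [Group G] (H : GH G) (c θ T : ℕ) (L : LS H c θ T)
  (n : L.ι → ℕ) (M : Subgroup G) [M.Normal] (_ : Fv L n M) (i1 i2 : L.ι) (P1 P2 : G)
  (_ : i1 = i2 → P1⁻¹ * P2 ∉ Subgroup.zpowers (L.x i1)) (A : ℕ)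
  (_ : ∀ (i : L.ι) (u : G), L.D i u P1 P2 ≤ A)
  (_ : ∀ i, 4 * (T * (A + θ + 1) + 1) + 24 * L.thr + T * (2 * c + 1) ≤ n i) (k1 k2 : ℤ)
  (_ : (L.rt i1 P1 k1 : G ⧸ M) = L.rt i2 P2 k2), (L.rt i1 P1 k1 : G ⧸ M) = 1

/-- V5: `LS.lift_window` -/
def LiftWindowStmt : Prop := ∀ (G : Type) [Group G] (H : GH G) (c θ T : ℕ) (L : LS H c θ T)
  (n : L.ι → ℕ) (M : Subgroup G) [M.Normal] (_ : Fv L n M) (E : GH G) (Θ : ℕ) (_ : L.Cone E Θ)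
  (Q : GH (G ⧸ M)) (_ : ∀ q : G ⧸ M, ∃ g : G, (g : G ⧸ M) = q ∧ E.len g = Q.len q)
  (A K' : ℕ) (P1 P2 : G)
  (_ : ∀ (i : L.ι) (u : G), L.D i u P1 P2 ≤ A) (_ : 2 * K' + 1 < E.d P1 P2)
  (_ : ∀ i, 4 * (T * (A + Θ + 1) + 1) + 24 * L.thr + T * (2 * c + 1) ≤ n i) (g : G ⧸ M)
  (_ : Q.d (P1 : G ⧸ M) (g * P1) ≤ K') (_ : Q.d (P2 : G ⧸ M) (g * P2) ≤ K'),
  ∃ g' : G, (g' : G ⧸ M) = g ∧ H.d P1 (g' * P1) ≤ (2 * A + 3 * Θ + 1) * K' ∧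
    H.d P2 (g' * P2) ≤ (2 * A + 3 * Θ + 1) * K'

/-- V6: `LS.transfer` -/
def TransferStmt : Prop := ∀ (G : Type) [Group G] (H : GH G) (c θ T : ℕ) (L : LS H c θ T)
  (n : L.ι → ℕ) (M : Subgroup G) [M.Normal] (_ : Fv L n M) (E : GH G) (Θ : ℕ) (_ : L.Cone E Θ)
  (Q : GH (G ⧸ M)) (_ : ∀ g : G, Q.len (g : G ⧸ M) ≤ E.len g)
  (_ : ∀ q : G ⧸ M, ∃ g : G, (g : G ⧸ M) = q ∧ E.len g = Q.len q)
  (γ : ℕ → G) (l : ℕ) (_ : E.Geod γ l) (_ : Q.d (γ 0 : G ⧸ M) (γ l) = l)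
  (_ : ∀ (i : L.ι) (u : G), 2 * |L.s i u (γ 0) (γ l)| < n i + T * (2 * c + 1))
  (K' k : ℕ) (_ : K' + 2 ≤ k) (_ : k + 1 + (K' + 2) ≤ l)
  (_ : 2 * c + θ + 10 * Θ + 10 ≤ H.d (γ k) (γ (k + 1)))
  (i : L.ι) (_ : (γ k)⁻¹ * γ (k + 1) ∈ Subgroup.zpowers (L.x i))
  (_ : ∀ i, (4 * K' + 20) * (T * (2 * c + θ + 10 * Θ + 10) + 1) + 24 * L.thr ≤ n i)
  (g : G ⧸ M)
  (_ : Q.d (γ (k - (K' + 2)) : G ⧸ M) (g * γ (k - (K' + 2))) ≤ K')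
  (_ : Q.d (γ (k + 1 + (K' + 2)) : G ⧸ M) (g * γ (k + 1 + (K' + 2))) ≤ K'),
  ∃ j, j ≤ k + K' + 1 ∧ k ≤ j + K' + 1 ∧ ∃ g' : G, (g' : G ⧸ M) = g ∧
    (γ k)⁻¹ * g' * γ j ∈ Subgroup.zpowers (L.x i)

/-- V7: `Setup.case1` -/
def Case1Stmt : Prop := ∀ (G : Type) [Group G] (H : GH G) (c θ T : ℕ) (L : LS H c θ T)
  (K B p L1 Θ : ℕ) (n : L.ι → ℕ) (E : GH G) (M : Subgroup G) [M.Normal] (Q : GH (G ⧸ M))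
  (_ : Sv L K B p L1 Θ n E M Q) (γ : ℕ → G) (l : ℕ) (_ : E.Geod γ l)
  (_ : Q.d (γ 0 : G ⧸ M) (γ l) = l)
  (_ : ∀ (i : L.ι) (u : G), 2 * |L.s i u (γ 0) (γ l)| < n i + T * (2 * c + 1))
  (K' k1 k2 : ℕ) (_ : K' + 2 ≤ k1) (_ : k1 < k2) (_ : k2 + 1 + (K' + 2) ≤ l)
  (_ : 2 * c + θ + 10 * Θ + 10 ≤ H.d (γ k1) (γ (k1 + 1)))
  (_ : 2 * c + θ + 10 * Θ + 10 ≤ H.d (γ k2) (γ (k2 + 1)))
  (_ : ∀ k, k1 < k → k < k2 → H.d (γ k) (γ (k + 1)) ≤ 2 * c + θ + 10 * Θ + 10)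
  (_ : ∀ i, (4 * K' + 20) * (T * (2 * c + 2 * θ + 20 * Θ + 20) + 1) + 24 * L.thr ≤ n i),
  {g : G ⧸ M | ∀ j, k1 - (K' + 2) ≤ j → j ≤ k2 + 1 + (K' + 2) →
    Q.d (γ j : G ⧸ M) (g * γ j) ≤ K'}.Finite ∧
  {g : G ⧸ M | ∀ j, k1 - (K' + 2) ≤ j → j ≤ k2 + 1 + (K' + 2) →
    Q.d (γ j : G ⧸ M) (g * γ j) ≤ K'}.ncard ≤ (2 * K' + 3) ^ 2

/-- V7: `Setup.case2` -/
def Case2Stmt : Prop := ∀ (G : Type) [Group G] (H : GH G) (c θ T : ℕ) (L : LS H c θ T)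
  (K B p L1 Θ : ℕ) (n : L.ι → ℕ) (E : GH G) (M : Subgroup G) [M.Normal] (Q : GH (G ⧸ M))
  (_ : Sv L K B p L1 Θ n E M Q) (A K' R : ℕ) (_ : R = (2 * A + 3 * Θ + 1) * K') (P1 P2 : G)
  (_ : ∀ (i : L.ι) (u : G), L.D i u P1 P2 ≤ A)
  (_ : 2 * K' + 2 + B + 24 * R + 100 * H.D + 100 + 2 * R +
    20 * (H.D + c + 1) * (Nat.clog 2 T + 10 * (H.D + c + 1)) ≤ E.d P1 P2)
  (_ : ∀ i, 4 * (T * (A + Θ + 1) + 1) + 24 * L.thr + T * (2 * c + 1) +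
    4 * T * (R + θ + Θ + 1000 * (H.D + c + θ + 1)) + 48 * L.thr + 4 ≤ n i),
  (∀ g : G ⧸ M, Q.d (P1 : G ⧸ M) (g * P1) ≤ K' → Q.d (P2 : G ⧸ M) (g * P2) ≤ K' →
    IsOfFinOrder g → g = 1) ∧
  ∀ g h : G ⧸ M, Q.d (P1 : G ⧸ M) (g * P1) ≤ K' → Q.d (P2 : G ⧸ M) (g * P2) ≤ K' →
    Q.d (P1 : G ⧸ M) (h * P1) ≤ K' → Q.d (P2 : G ⧸ M) (h * P2) ≤ K' → g * h = h * g

/-- V8: `mixQ`; the primality of `p` and `Tor (G ⧸ M) p` are replaced by the hypothesis that the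
nontrivial torsion elements of the quotient have large order -/
def MixStmt : Prop := ∀ (D c θ Θ De B : ℕ), ∃ C : ℕ, ∀ T : ℕ, ∃ n0 : ℕ, ∀ (G : Type) [Group G]
  (H : GH G) (L : LS H c θ T) (K p L1 : ℕ) (n : L.ι → ℕ) (E : GH G) (M : Subgroup G) [M.Normal]
  (Q : GH (G ⧸ M)),
  H.D ≤ D → E.D ≤ De → (∀ i, n0 ≤ n i) →
  (∀ g : G ⧸ M, IsOfFinOrder g → g ≠ 1 → n0 ≤ orderOf g) → Sv L K B p L1 Θ n E M Q →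
  Q.Mix (100 * Q.D + 100) (C * (Nat.clog 2 T + 1)) ((2 * (101 * Q.D + 100) + 3) ^ 2)

end Pool.Agent.Y45.MON
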